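import Mathlib

/-! Saddle points for a function whose logarithmic derivative is Lipschitz (for helper466's HP). -/

set_option autoImplicit false

namespace Pool.Agent.H401.HP

open Complex Set Filter Topology
open scoped ComplexConjugate

/-- the saddle point -/
lemma saddle {P : ℂ → ℂ} {w : ℂ} {lam L κ k : ℝ} (hlam : 0 < lam) (hL : 0 < L) (hκ : 0 ≤ κ)
    (hk0 : 0 ≤ k) (hk : 2 * k < 1)
    (h1 : ∀ z : ℂ, ‖z - (w + (lam * L : ℝ))‖ ≤ 2 * κ * (lam * L) → ‖P z - (L / 2 : ℝ)‖ ≤ κ * L)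
    (h2 : ∀ z z' : ℂ, ‖z - (w + (lam * L : ℝ))‖ ≤ 2 * κ * (lam * L) →
      ‖z' - (w + (lam * L : ℝ))‖ ≤ 2 * κ * (lam * L) → ‖P z - P z'‖ ≤ k * ‖z - z'‖ / lam) :
    ∃ z0 : ℂ, ‖z0 - (w + (lam * L : ℝ))‖ ≤ 2 * κ * (lam * L) ∧ w + 2 * lam * P z0 = z0 := by
  set c : ℂ := w + (lam * L : ℝ) with hc
  set R : ℝ := 2 * κ * (lam * L) with hR
  have hR0 : 0 ≤ R := by positivity
  set f : ℂ → ℂ := fun z => w + 2 * lam * P z with hf
  have hmaps : MapsTo f (Metric.closedBall c R) (Metric.closedBall c R) := by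
    intro z hz
    rw [mem_closedBall_iff_norm] at hz ⊢
    have h3 := h1 z hz
    have e : f z - c = ((2 * lam : ℝ) : ℂ) * (P z - (L / 2 : ℝ)) := by
      rw [hf, hc]
      push_cast
      ring
    rw [e, norm_mul, Complex.norm_real, Real.norm_eq_abs, abs_of_pos (by positivity)]
    calc 2 * lam * ‖P z - (L / 2 : ℝ)‖ ≤ 2 * lam * (κ * L) :=
          mul_le_mul_of_nonneg_left h3 (by positivity)
      _ = R := by rw [hR]; ring
  have hctr : ContractingWith (⟨2 * k, by positivity⟩ : NNReal) (hmaps.restrict f _ _) := by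
    refine ⟨by exact_mod_cast hk, LipschitzWith.of_dist_le_mul fun x y => ?_⟩
    have hx := mem_closedBall_iff_norm.1 x.2
    have hy := mem_closedBall_iff_norm.1 y.2
    have h3 := h2 x y hx hy
    rw [Subtype.dist_eq, Subtype.dist_eq, dist_eq_norm, dist_eq_norm]
    show ‖f x - f y‖ ≤ (2 * k) * ‖(x : ℂ) - y‖
    have e : f x - f y = ((2 * lam : ℝ) : ℂ) * (P x - P y) := by
      rw [hf]
      push_cast
      ring
    rw [e, norm_mul, Complex.norm_real, Real.norm_eq_abs, abs_of_pos (by positivity)]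
    calc 2 * lam * ‖P x - P y‖ ≤ 2 * lam * (k * ‖(x : ℂ) - y‖ / lam) :=
          mul_le_mul_of_nonneg_left h3 (by positivity)
      _ = 2 * k * ‖(x : ℂ) - y‖ := by field_simp
  obtain ⟨z0, hz0, hfix, -⟩ := hctr.exists_fixedPoint' (Metric.isClosed_closedBall.isComplete) hmaps
    (x := c) (Metric.mem_closedBall_self hR0) (edist_ne_top _ _)
  exact ⟨z0, mem_closedBall_iff_norm.1 hz0, hfix⟩

/-- growth of the solutions of a linear equation -/
lemma growth {f d : ℝ → ℂ} {C : ℝ} {s : Set ℝ} (hs : Convex ℝ s)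
    (hf : ∀ u ∈ s, HasDerivAt f (f u * d u) u)
    (hne : ∀ u ∈ s, f u ≠ 0) (hd : ∀ u ∈ s, |(d u).re| ≤ C) {a b : ℝ} (ha : a ∈ s) (hb : b ∈ s) :
    ‖f b‖ ≤ ‖f a‖ * Real.exp (C * |b - a|) := by
  have hpos : ∀ u ∈ s, 0 < ‖f u‖ ^ 2 := fun u hu => by
    have := norm_pos_iff.mpr (hne u hu)
    positivity
  have h1 : ∀ u ∈ s, HasDerivAt (fun u => Real.log (‖f u‖ ^ 2)) (2 * (d u).re) u := by
    intro u hu
    have h2 := (hf u hu).norm_sq
    have h3 := h2.log (hpos u hu).ne'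
    refine h3.congr_deriv ?_
    have e : inner ℝ (f u) (f u * d u) = ‖f u‖ ^ 2 * (d u).re := by
      rw [Complex.inner]
      have : f u * d u * conj (f u) = ((‖f u‖ ^ 2 : ℝ) : ℂ) * d u := by
        push_cast
        rw [← Complex.conj_mul']
        ring
      rw [this, re_ofReal_mul]
    rw [e]
    have h4 := (hpos u hu).ne'
    rw [div_eq_iff h4]
    ring
  have h2 := hs.norm_image_sub_le_of_norm_hasDerivWithin_le
    (f := fun u => Real.log (‖f u‖ ^ 2)) (f' := fun u => 2 * (d u).re) (C := 2 * C)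
    (fun u hu => (h1 u hu).hasDerivWithinAt) (fun u hu => by
      rw [Real.norm_eq_abs, abs_mul, abs_two]
      linarith [hd u hu]) ha hb
  simp only [Real.norm_eq_abs] at h2
  have h3 := (abs_le.mp h2).2
  have h4 : Real.log (‖f b‖ ^ 2) ≤ Real.log (‖f a‖ ^ 2) + 2 * C * |b - a| := by linarith
  have h5 : ‖f b‖ ^ 2 ≤ (‖f a‖ * Real.exp (C * |b - a|)) ^ 2 := by
    rw [← Real.exp_log (hpos b hb)]
    refine (Real.exp_le_exp.mpr h4).trans (le_of_eq ?_)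
    rw [Real.exp_add, Real.exp_log (hpos a ha), mul_pow, ← Real.exp_nat_mul]
    congr 2
    push_cast
    ring
  exact (pow_le_pow_iff_left₀ (norm_nonneg _) (by positivity) two_ne_zero).mp h5

/-- a function with small Lipschitz logarithmic derivative -/
lemma near_one {g D : ℝ → ℂ} {k lam s0 v : ℝ} (hlam : 0 < lam) (hk : 0 ≤ k)
    (hg : ∀ u ∈ uIcc s0 v, HasDerivAt g (g u * D u) u) (hne : ∀ u ∈ uIcc s0 v, g u ≠ 0)
    (h1 : g s0 = 1) (hD : ∀ u ∈ uIcc s0 v, ‖D u‖ ≤ k * |u - s0| / lam) :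
    ‖g v‖ ≤ Real.exp (k * ((v - s0) ^ 2 / lam)) ∧
      ‖g v - 1‖ ≤ k * ((v - s0) ^ 2 / lam) * Real.exp (k * ((v - s0) ^ 2 / lam)) := by
  set C : ℝ := k * |v - s0| / lam with hC
  have hC0 : 0 ≤ C := by positivity
  have hDC : ∀ u ∈ uIcc s0 v, ‖D u‖ ≤ C := fun u hu => by
    refine (hD u hu).trans ?_
    rw [hC]
    have := abs_sub_left_of_mem_uIcc hu
    gcongr
  have hCv : C * |v - s0| = k * ((v - s0) ^ 2 / lam) := by
    rw [hC, ← sq_abs (v - s0)]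
    ring
  have hb : ∀ u ∈ uIcc s0 v, ‖g u‖ ≤ Real.exp (k * ((v - s0) ^ 2 / lam)) := fun u hu => by
    have h2 := growth (convex_uIcc s0 v) hg hne (C := C)
      (fun u hu => (abs_re_le_norm _).trans (hDC u hu)) left_mem_uIcc hu
    rw [h1, norm_one, one_mul] at h2
    refine h2.trans (Real.exp_le_exp.mpr ?_)
    rw [← hCv]
    exact mul_le_mul_of_nonneg_left (abs_sub_left_of_mem_uIcc hu) hC0
  refine ⟨hb v right_mem_uIcc, ?_⟩
  have h3 := (convex_uIcc s0 v).norm_image_sub_le_of_norm_hasDerivWithin_le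
    (f := g) (f' := fun u => g u * D u) (C := Real.exp (k * ((v - s0) ^ 2 / lam)) * C)
    (fun u hu => (hg u hu).hasDerivWithinAt) (fun u hu => by
      rw [norm_mul]
      exact mul_le_mul (hb u hu) (hDC u hu) (norm_nonneg _) (Real.exp_pos _).le)
    left_mem_uIcc right_mem_uIcc
  rw [h1, Real.norm_eq_abs, mul_assoc, hCv] at h3
  linarith

/-- the integrand is close to a Gaussian -/
lemma gauss {F P : ℂ → ℂ} {t0 lam s0 k a : ℝ} {w : ℂ} (hlam : 0 < lam) (hk : 0 ≤ k)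
    (ha : a ≤ s0)
    (hder : ∀ v : ℝ, a ≤ v → HasDerivAt F (F ((v : ℂ) + (t0 : ℂ) * I) * P ((v : ℂ) + (t0 : ℂ) * I))
      ((v : ℂ) + (t0 : ℂ) * I))
    (hne : ∀ v : ℝ, a ≤ v → F ((v : ℂ) + (t0 : ℂ) * I) ≠ 0)
    (hs : ((s0 : ℂ) - w) / (2 * lam) = P ((s0 : ℂ) + (t0 : ℂ) * I))
    (hlip : ∀ v : ℝ, a ≤ v →
      ‖P ((v : ℂ) + (t0 : ℂ) * I) - P ((s0 : ℂ) + (t0 : ℂ) * I)‖ ≤ k * |v - s0| / lam)
    {E : ℝ → ℂ} (hE : ∀ v : ℝ, E v = F ((v : ℂ) + (t0 : ℂ) * I) *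
      cexp (-((v : ℂ) - w) ^ 2 / (4 * lam))) {v : ℝ} (hv : a ≤ v) :
    ‖E v‖ ≤ ‖E s0‖ * Real.exp ((k - 1 / 4) * ((v - s0) ^ 2 / lam)) ∧
      ‖E v - E s0 * (Real.exp (-(v - s0) ^ 2 / (4 * lam)) : ℝ)‖ ≤
        k * ((v - s0) ^ 2 / lam) * Real.exp ((k - 1 / 4) * ((v - s0) ^ 2 / lam)) * ‖E s0‖ := by
  have hlamC : (lam : ℂ) ≠ 0 := by exact_mod_cast hlam.ne'
  have hline : ∀ v : ℝ, HasDerivAt (fun v : ℝ => (v : ℂ) + (t0 : ℂ) * I) 1 v := fun v => by
    have := (hasDerivAt_id v).ofReal_comp.add_const ((t0 : ℂ) * I)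
    simpa using this
  have hEne : ∀ u : ℝ, a ≤ u → E u ≠ 0 := fun u hu => by
    rw [hE]
    exact mul_ne_zero (hne u hu) (Complex.exp_ne_zero _)
  have hE0 := hEne s0 ha
  -- the quotient
  set G : ℝ → ℂ := fun u => F ((u : ℂ) + (t0 : ℂ) * I) *
    cexp (-((u : ℂ) - w) ^ 2 / (4 * lam) + ((u : ℂ) - s0) ^ 2 / (4 * lam)) / E s0 with hG
  have hGE : ∀ u : ℝ, E u = E s0 * (Real.exp (-(u - s0) ^ 2 / (4 * lam)) : ℝ) * G u := by
    intro u
    have e1 : ((Real.exp (-(u - s0) ^ 2 / (4 * lam)) : ℝ) : ℂ) =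
        cexp (-(((u : ℂ) - s0) ^ 2 / (4 * lam))) := by
      rw [Complex.ofReal_exp]
      congr 1
      push_cast
      ring
    have e2 : cexp (-(((u : ℂ) - s0) ^ 2 / (4 * lam))) * cexp (((u : ℂ) - s0) ^ 2 / (4 * lam)) =
        1 := by
      rw [← Complex.exp_add, neg_add_cancel, Complex.exp_zero]
    rw [hG, e1, hE u]
    simp only
    rw [Complex.exp_add]
    calc F ((u : ℂ) + (t0 : ℂ) * I) * cexp (-((u : ℂ) - w) ^ 2 / (4 * lam))
        = F ((u : ℂ) + (t0 : ℂ) * I) * cexp (-((u : ℂ) - w) ^ 2 / (4 * lam)) *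
          (cexp (-(((u : ℂ) - s0) ^ 2 / (4 * lam))) * cexp (((u : ℂ) - s0) ^ 2 / (4 * lam))) *
            (E s0 / E s0) := by
          rw [e2, div_self hE0, mul_one, mul_one]
      _ = _ := by ring
  have hG1 : G s0 = 1 := by
    rw [hG]
    simp only
    rw [sub_self, hE s0]
    have e1 : (-((s0 : ℂ) - w) ^ 2 / (4 * (lam : ℂ)) + (0 : ℂ) ^ 2 / (4 * lam)) =
        -((s0 : ℂ) - w) ^ 2 / (4 * lam) := by ring
    rw [e1]
    exact div_self (by rw [← hE]; exact hE0)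
  have hGder : ∀ u : ℝ, a ≤ u → HasDerivAt G (G u * (P ((u : ℂ) + (t0 : ℂ) * I) -
      P ((s0 : ℂ) + (t0 : ℂ) * I))) u := by
    intro u hu
    have h1 := (hder u hu).comp u (hline u)
    have h2 : HasDerivAt (fun u : ℝ => -((u : ℂ) - w) ^ 2 / (4 * lam) +
        ((u : ℂ) - s0) ^ 2 / (4 * (lam : ℂ))) (-(((s0 : ℂ) - w) / (2 * lam))) u := by
      have h3 : HasDerivAt (fun u : ℝ => (u : ℂ)) 1 u := by
        simpa using (hasDerivAt_id u).ofReal_comp
      have h4 := ((h3.sub_const w).pow 2).neg.div_const (4 * (lam : ℂ))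
      have h5 := ((h3.sub_const (s0 : ℂ)).pow 2).div_const (4 * (lam : ℂ))
      refine (h4.add h5).congr_deriv ?_
      simp only [Nat.cast_ofNat, Nat.add_one_sub_one, pow_one, mul_one]
      field_simp
      ring
    have h6 := (h1.mul h2.cexp).div_const (E s0)
    refine h6.congr_deriv ?_
    rw [← hs, hG]
    simp only [Function.comp, mul_one]
    ring
  have hGne : ∀ u : ℝ, a ≤ u → G u ≠ 0 := fun u hu =>
    div_ne_zero (mul_ne_zero (hne u hu) (Complex.exp_ne_zero _)) hE0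
  have hmem : ∀ u ∈ uIcc s0 v, a ≤ u := fun u hu => (le_min ha hv).trans hu.1
  obtain ⟨hb1, hb2⟩ := near_one hlam hk (fun u hu => hGder u (hmem u hu))
    (fun u hu => hGne u (hmem u hu)) hG1 (fun u hu => hlip u (hmem u hu))
  have hn : ‖((Real.exp (-(v - s0) ^ 2 / (4 * lam)) : ℝ) : ℂ)‖ =
      Real.exp (-(1 / 4) * ((v - s0) ^ 2 / lam)) := by
    rw [Complex.norm_real, Real.norm_eq_abs, abs_of_pos (Real.exp_pos _)]
    congr 1
    field_simp
  have hmul : Real.exp (-(1 / 4) * ((v - s0) ^ 2 / lam)) * Real.exp (k * ((v - s0) ^ 2 / lam)) =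
      Real.exp ((k - 1 / 4) * ((v - s0) ^ 2 / lam)) := by
    rw [← Real.exp_add]
    congr 1
    ring
  constructor
  · rw [hGE v, norm_mul, norm_mul, hn, mul_assoc, ← hmul]
    gcongr
  · have e : E v - E s0 * (Real.exp (-(v - s0) ^ 2 / (4 * lam)) : ℝ) =
        E s0 * (Real.exp (-(v - s0) ^ 2 / (4 * lam)) : ℝ) * (G v - 1) := by
      rw [hGE v]
      ring
    rw [e, norm_mul, norm_mul, hn, ← hmul]
    calc ‖E s0‖ * Real.exp (-(1 / 4) * ((v - s0) ^ 2 / lam)) * ‖G v - 1‖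
        ≤ ‖E s0‖ * Real.exp (-(1 / 4) * ((v - s0) ^ 2 / lam)) *
          (k * ((v - s0) ^ 2 / lam) * Real.exp (k * ((v - s0) ^ 2 / lam))) := by gcongr
      _ = _ := by ring

end Pool.Agent.H401.HP
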