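import Pool.Agent.H466.HP.Stm4
import Pool.Agent.H333.HP.Mono
import Pool.Agent.H401.HP.SADa

/-! Task HP-SAD (helper466): saddle points at regular points. -/

set_option autoImplicit false

namespace Pool.Agent.H401.HP

open Complex MeasureTheory Set Filter Topology
open scoped ComplexConjugate
open Pool.Agent.H466.HF Pool.Agent.H466.LD Pool.Agent.H466.HP
open Pool.Agent.H862.VK (Yz)

/-- monotonicity at the height of the saddle point -/
lemma mono_at {t t0 y0 s v : ℝ} (hcf : CF t y0 64) (hy0 : 0 < y0) (hys : 32 * y0 ≤ s)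
    (ht : |t0 - t| ≤ 5 / 4 * s) (hv : 0 ≤ v) (hvs : v ≤ s / 16) :
    ‖LL gk 0 ((v : ℂ) + (t0 : ℂ) * I)‖ ≤ ‖LL gk 0 (((s / 16 : ℝ) : ℂ) + (t0 : ℂ) * I)‖ := by
  have h1 := Pool.Agent.H333.HP.mono v (s / 16) t0 hv hvs (fun b hb => by
    have hs : 0 < s := by linarith
    rcases hcf b hb with h2 | h2
    · have h3 : b.re ^ 2 ≤ (y0 / 4) ^ 2 := sq_le_sq' (by linarith [(abs_le.1 h2).1])
        (abs_le.1 h2).2
      have h4 : y0 ^ 2 ≤ (s / 32) ^ 2 := by
        apply pow_le_pow_left₀ hy0.le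
        linarith
      nlinarith [sq_nonneg (b.im - t0)]
    · have h3 : |b.im - t| ≤ |b.im - t0| + 5 / 4 * s := by
        have e : b.im - t = (b.im - t0) + (t0 - t) := by ring
        rw [e]
        exact (abs_add_le _ _).trans (by linarith)
      have h4 : |b.re| ≤ (|b.im - t0| + 5 / 4 * s) / 512 := by
        refine h2.trans ?_
        norm_num
        linarith
      have h5 : |b.re| ^ 2 ≤ ((|b.im - t0| + 5 / 4 * s) / 512) ^ 2 :=
        pow_le_pow_left₀ (abs_nonneg _) h4 2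
      rw [sq_abs] at h5
      have h6 : |b.im - t0| ^ 2 = (b.im - t0) ^ 2 := sq_abs _
      nlinarith [sq_nonneg (|b.im - t0| - 5 / 4 * s), sq_nonneg (b.im - t0)])
  rw [F_Yz_norm, F_Yz_norm]
  have e : ∀ x : ℝ, (x : ℂ) + (t0 : ℂ) * I = (x : ℂ) + I * (t0 : ℂ) := fun x => by ring
  rw [e, e]
  linarith

theorem sad (h : S_LIP) : S_SAD := by
  intro δ κ1 hδ hκ1
  set k : ℝ := min κ1 (min (1 / 200) (1 / (2 * (1 + δ)))) with hk
  have hk0 : 0 < k := lt_min hκ1 (lt_min (by norm_num) (by positivity))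
  have hk1 : k ≤ κ1 := min_le_left _ _
  have hk2 : k ≤ 1 / 200 := (min_le_right _ _).trans (min_le_left _ _)
  have hk3 : k ≤ 1 / (2 * (1 + δ)) := (min_le_right _ _).trans (min_le_right _ _)
  obtain ⟨κ, T0, hκ0, hκk, hT0, H⟩ := h δ k hδ hk0
  refine ⟨κ, T0, hκ0, hκk.trans hk1, hT0, ?_⟩
  intro T t y0 lam hT ht1 ht2 hy0 hR hlam hlamL2 hlamL w hw0 hw1 hwt hys
  set L := Real.log T with hL
  have hLp : 0 < L := Real.log_pos (by linarith)
  set s := w.re + lam * L with hs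
  have hlL : 0 < lam * L := by positivity
  have hsp : 0 < s := by linarith
  have hsle : lam * L ≤ s := by linarith
  have hκ2 : κ ≤ 1 / 200 := hκk.trans hk2
  have hκ3 : 2 * κ * (lam * L) ≤ s / 100 := by nlinarith
  have hκ4 : 2 * κ * (lam * L) ≤ 1 := by
    have h1 : κ * (2 * (1 + δ)) ≤ 1 := by
      have h2 := hκk.trans hk3
      rwa [le_div_iff₀ (by positivity)] at h2
    nlinarith
  have Hz := H T t y0 s lam hT ht1 ht2 hy0 hR hys (by linarith) hlam hsle hlamL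
  -- the disc
  have hdisc : ∀ z : ℂ, ‖z - (w + (lam * L : ℝ))‖ ≤ 2 * κ * (lam * L) →
      |z.re - s| ≤ s / 100 ∧ z.re ≤ δ + 2 ∧ |z.im - t| ≤ 5 / 4 * s := by
    intro z hz
    have h1 := (abs_re_le_norm _).trans hz
    have h2 := (abs_im_le_norm _).trans hz
    have e1 : (z - (w + (lam * L : ℝ))).re = z.re - s := by
      rw [sub_re, add_re, ofReal_re]
    have e2 : (z - (w + (lam * L : ℝ))).im = z.im - w.im := by
      rw [sub_im, add_im, ofReal_im, add_zero]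
    rw [e1] at h1
    rw [e2] at h2
    have h3 := (abs_le.1 h1).2
    refine ⟨h1.trans hκ3, by linarith, ?_⟩
    have e3 : z.im - t = (z.im - w.im) + (w.im - t) := by ring
    rw [e3]
    refine (abs_add_le _ _).trans ?_
    linarith
  have hre : ∀ z : ℂ, |z.re - s| ≤ s / 100 → s / 16 ≤ z.re := fun z hz => by
    have := (abs_le.1 hz).1
    linarith
  obtain ⟨z0, hz0, hfix⟩ := saddle (P := P) (w := w) (k := k) hlam hLp hκ0.le hk0.le (by linarith)
    (fun z hz => by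
      obtain ⟨a1, a2, a3⟩ := hdisc z hz
      exact (Hz z (hre z a1) a3).2.1 a2)
    (fun z z' hz hz' => by
      obtain ⟨a1, a2, a3⟩ := hdisc z hz
      obtain ⟨b1, b2, b3⟩ := hdisc z' hz'
      exact (Hz z (hre z a1) a3).2.2 z' (hre z' b1) b2 b3)
  obtain ⟨c1, c2, c3⟩ := hdisc z0 hz0
  have hlamC : (lam : ℂ) ≠ 0 := by exact_mod_cast hlam.ne'
  set s0 : ℝ := z0.re with hs0
  set t0 : ℝ := z0.im with ht0
  have hz0' : (s0 : ℂ) + (t0 : ℂ) * I = z0 := re_add_im z0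
  have hsad : ((s0 : ℂ) - (w - (t0 : ℂ) * I)) / (2 * lam) = P ((s0 : ℂ) + (t0 : ℂ) * I) := by
    rw [hz0', div_eq_iff (mul_ne_zero two_ne_zero hlamC)]
    have e : (s0 : ℂ) - (w - (t0 : ℂ) * I) = z0 - w := by rw [← hz0']; ring
    rw [e]
    nth_rewrite 1 [← hfix]
    ring
  have hs16 : s / 16 ≤ s0 := hre z0 c1
  have hsc := abs_le.1 c1
  -- points on the horizontal line
  have hpt : ∀ v : ℝ, s / 16 ≤ v → Yz ((v : ℂ) + (t0 : ℂ) * I) ≠ 0 ∧
      ‖P ((v : ℂ) + (t0 : ℂ) * I) - P ((s0 : ℂ) + (t0 : ℂ) * I)‖ ≤ k * |v - s0| / lam := by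
    intro v hv
    have e1 : ((v : ℂ) + (t0 : ℂ) * I).re = v := by simp
    have e2 : ((v : ℂ) + (t0 : ℂ) * I).im = t0 := by simp
    have h1 := Hz ((v : ℂ) + (t0 : ℂ) * I) (by rw [e1]; exact hv) (by rw [e2]; exact c3)
    refine ⟨h1.1, ?_⟩
    have h2 := h1.2.2 z0 hs16 c2 c3
    rw [hz0']
    refine h2.trans (le_of_eq ?_)
    have e3 : (v : ℂ) + (t0 : ℂ) * I - z0 = ((v - s0 : ℝ) : ℂ) := by
      rw [← hz0']
      push_cast
      ring
    rw [e3, Complex.norm_real, Real.norm_eq_abs]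
  have hgauss := fun (v : ℝ) (hv : s / 16 ≤ v) => gauss (F := LL gk 0) (P := P) (t0 := t0)
    (lam := lam) (s0 := s0) (k := k) (a := s / 16) (w := w - (t0 : ℂ) * I) hlam hk0.le hs16
    (fun u hu => F_der (hpt u hu).1) (fun u hu => F_ne (hpt u hu).1) hsad
    (fun u hu => (hpt u hu).2) (E := Ev t0 lam (w - (t0 : ℂ) * I)) (fun u => rfl) hv
  refine ⟨s0, t0, ⟨hlam, hsp, ?_, c1.trans (by linarith), ?_, ?_, ?_⟩, ?_⟩
  · -- big
    have h1 : 1000 * lam ≤ lam * (lam * L ^ 2) := by nlinarith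
    have h2 : (lam * L) ^ 2 ≤ s ^ 2 := pow_le_pow_left₀ hlL.le hsle 2
    nlinarith
  · -- ne
    exact mul_ne_zero (F_ne (hpt s0 hs16).1) (Complex.exp_ne_zero _)
  · -- right
    intro v hv
    refine (hgauss v hv).2.trans ?_
    have hq : 0 ≤ (v - s0) ^ 2 / lam := by positivity
    have h1 : Real.exp ((k - 1 / 4) * ((v - s0) ^ 2 / lam)) ≤
        Real.exp (-(v - s0) ^ 2 / (5 * lam)) := by
      apply Real.exp_le_exp.mpr
      have e : -(v - s0) ^ 2 / (5 * lam) = -(1 / 5) * ((v - s0) ^ 2 / lam) := by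
        field_simp
      rw [e]
      apply mul_le_mul_of_nonneg_right _ hq
      linarith
    gcongr
  · -- left
    intro v hv hvs
    have h1 := mono_at hR.1 hy0 hys c3 hv hvs
    have h2 := (hgauss (s / 16) le_rfl).1
    have hwre : (w - (t0 : ℂ) * I).re = w.re := by simp
    have h3 : ‖Ev t0 lam (w - (t0 : ℂ) * I) v‖ ≤
        ‖Ev t0 lam (w - (t0 : ℂ) * I) (s / 16)‖ * Real.exp (1 / 1024 * (s ^ 2 / lam)) := by
      unfold Ev
      rw [norm_mul, norm_mul, norm_gk, norm_gk, mul_assoc, ← Real.exp_add]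
      refine mul_le_mul h1 (Real.exp_le_exp.mpr ?_) (Real.exp_pos _).le (norm_nonneg _)
      rw [hwre]
      have e : -(s / 16 - w.re) ^ 2 / (4 * lam) + (w - (t0 : ℂ) * I).im ^ 2 / (4 * lam) +
          1 / 1024 * (s ^ 2 / lam) - (-(v - w.re) ^ 2 / (4 * lam) +
            (w - (t0 : ℂ) * I).im ^ 2 / (4 * lam)) =
          (v ^ 2 + 2 * w.re * (s / 16 - v)) / (4 * lam) := by
        field_simp
        ring
      have h4 : 0 ≤ (v ^ 2 + 2 * w.re * (s / 16 - v)) / (4 * lam) := by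
        have : 0 ≤ w.re * (s / 16 - v) := mul_nonneg hw0 (by linarith)
        positivity
      linarith
    refine h3.trans ?_
    calc ‖Ev t0 lam (w - (t0 : ℂ) * I) (s / 16)‖ * Real.exp (1 / 1024 * (s ^ 2 / lam))
        ≤ (‖Ev t0 lam (w - (t0 : ℂ) * I) s0‖ *
            Real.exp ((k - 1 / 4) * ((s / 16 - s0) ^ 2 / lam))) *
              Real.exp (1 / 1024 * (s ^ 2 / lam)) := by gcongr
      _ = Real.exp ((k - 1 / 4) * ((s / 16 - s0) ^ 2 / lam) + 1 / 1024 * (s ^ 2 / lam)) *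
          ‖Ev t0 lam (w - (t0 : ℂ) * I) s0‖ := by
          rw [Real.exp_add]
          ring
      _ ≤ Real.exp (-(19 / 100 * (s ^ 2 / lam))) * ‖Ev t0 lam (w - (t0 : ℂ) * I) s0‖ := by
          refine mul_le_mul_of_nonneg_right (Real.exp_le_exp.mpr ?_) (norm_nonneg _)
          have h5 : (9 / 10 * s) ^ 2 ≤ (s / 16 - s0) ^ 2 := by
            have h6 : 9 / 10 * s ≤ s0 - s / 16 := by linarith
            calc (9 / 10 * s) ^ 2 ≤ (s0 - s / 16) ^ 2 := pow_le_pow_left₀ (by positivity) h6 2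
              _ = (s / 16 - s0) ^ 2 := by ring
          have h7 : 81 / 100 * (s ^ 2 / lam) ≤ (s / 16 - s0) ^ 2 / lam := by
            rw [← mul_div_assoc]
            apply div_le_div_of_nonneg_right _ hlam.le
            linarith
          have h8 : 0 ≤ s ^ 2 / lam := by positivity
          nlinarith
  · rw [hsad, hz0']
    exact (Hz z0 hs16 c3).2.1 c2

end Pool.Agent.H401.HP
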